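import Mathlib

set_option autoImplicit false

open Matrix Kronecker

namespace Pool.Agent.Results.MP_998457_co.Counter

variable {m n m' n' : Type} [Fintype m] [Fintype n] [Fintype m'] [Fintype n']
  [DecidableEq n] [DecidableEq n']

/-- The number of violated checks. -/
def energy (A : Matrix m n (ZMod 2)) (x : n → ZMod 2) : ℕ := hammingNorm (A *ᵥ x)

/-- The minimum weight of a nonzero codeword. -/
noncomputable def dist (A : Matrix m n (ZMod 2)) : ℕ :=
  sInf {d | ∃ x : n → ZMod 2, x ≠ 0 ∧ A *ᵥ x = 0 ∧ hammingNorm x = d}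

/-- The energy barrier: the least `b` such that some nonzero codeword is reached from `0` by
single bit flips through words of energy at most `b`. -/
noncomputable def barrier (A : Matrix m n (ZMod 2)) : ℕ :=
  sInf {b | ∃ (F : ℕ) (g : ℕ → n → ZMod 2), g 0 = 0 ∧ g F ≠ 0 ∧ A *ᵥ g F = 0 ∧
    (∀ i < F, hammingDist (g i) (g (i + 1)) = 1) ∧ ∀ i ≤ F, energy A (g i) ≤ b}

/-- The parity-check matrix of the tensor product code: `A ⊗ I` stacked on `I ⊗ B`. -/
def tensor (A : Matrix m n (ZMod 2)) (B : Matrix m' n' (ZMod 2)) :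
    Matrix ((m × n') ⊕ (n × m')) (n × n') (ZMod 2) :=
  Matrix.fromRows (A ⊗ₖ (1 : Matrix n' n' (ZMod 2))) ((1 : Matrix n n (ZMod 2)) ⊗ₖ B)

def D : Matrix (Fin 3) (Fin 4) (ZMod 2) := !![1, 0, 1, 0; 0, 1, 1, 0; 1, 1, 1, 1]

lemma dist_D : dist D = 4 := by
  refine IsLeast.csInf_eq ⟨⟨![1, 1, 1, 1], by decide, by decide, by decide⟩, ?_⟩
  rintro d ⟨x, h1, h2, rfl⟩
  revert x
  decide +kernel

def S : Finset (Fin 4 → ZMod 2) :=
  {![0, 0, 0, 0], ![0, 0, 0, 1], ![1, 0, 0, 1], ![0, 1, 0, 1]}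

lemma closed : ∀ x ∈ S, ∀ y, hammingDist x y = 1 → energy D y ≤ 1 → y ∈ S := by
  decide +kernel

lemma barrier_D : barrier D = 2 := by
  refine IsLeast.csInf_eq ⟨⟨4, fun i j => if j.val < i then 1 else 0, by decide, by decide,
    by decide, by decide, by decide⟩, ?_⟩
  rintro b ⟨F, g, h0, h1, h2, h3, h4⟩
  by_contra hb
  have h5 : ∀ i ≤ F, g i ∈ S := by
    intro i
    induction i with
    | zero => intro _; rw [h0]; decide
    | succ i ih =>
      intro hi
      exact closed _ (ih (by omega)) _ (h3 i hi) ((h4 _ hi).trans (by omega))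
  have h6 : ∀ x ∈ S, x ≠ 0 → D *ᵥ x ≠ 0 := by decide
  exact h6 _ (h5 F le_rfl) h1 h2

def path (i : ℕ) (v : Fin 4 × Fin 4) : ZMod 2 :=
  if ([0, 1, 5, 261, 1285, 1287, 1799, 1807, 3855, 3871, 3903, 3967, 4095, 8191, 16383, 32767,
    65535].getD i 0).testBit (4 * v.1 + v.2) then 1 else 0

lemma barrier_T : barrier (tensor D D) ≤ 6 :=
  Nat.sInf_le ⟨16, path, by decide +kernel, by decide +kernel, by decide +kernel,
    by decide +kernel, by decide +kernel⟩

/-- Two parity-check matrices with nonzero codewords whose tensor product code has energy barrier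
below `min (d_a E_b) (E_a d_b)`. -/
theorem result : ∃ (ma na mb nb : ℕ) (A : Matrix (Fin ma) (Fin na) (ZMod 2))
    (B : Matrix (Fin mb) (Fin nb) (ZMod 2)), (∃ x ≠ 0, A *ᵥ x = 0) ∧ (∃ x ≠ 0, B *ᵥ x = 0) ∧
    2 < dist A ∧ 2 < dist B ∧
    barrier (tensor A B) < min (dist A * barrier B) (barrier A * dist B) := by
  refine ⟨3, 4, 3, 4, D, D, ⟨![1, 1, 1, 1], by decide, by decide⟩,
    ⟨![1, 1, 1, 1], by decide, by decide⟩, ?_⟩
  have := barrier_T
  rw [dist_D, barrier_D]
  omega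

end Pool.Agent.Results.MP_998457_co.Counter
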